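import Pool.Agent.W181.WH.Stm

open MeasureTheory

namespace Pool.Agent.W214.WH

open Pool.Agent.W181.WH

theorem psi_eq (n : ℕ) (α : Fin (n + 1) → ℂ) :
    Psi (n + 1) (fun i => 2 * α i) = KK (α 0) (Psi n (fun i => 2 * tl α i)) 1 := by
  funext x
  rw [Psi]
  unfold KK
  simp only [map_one, one_mul]
  rfl

theorem t_eigx : S_STEP → S_EIGX := by
  intro hS n
  induction n with
  | zero =>
    intro α
    have h0 : Psi 0 (fun i : Fin 0 => (2 : ℂ) * α i) = fun _ => 1 := by
      funext x; rw [Psi]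
    have hg : Good (Psi 0 (fun i : Fin 0 => (2 : ℂ) * α i)) := by
      rw [h0]
      refine ⟨contDiff_const, ?_⟩
      intro l
      cases l with
      | nil =>
        refine ⟨1, 0, fun x => ?_⟩
        simp
      | cons a _ => exact a.elim0
    refine ⟨hg, fun z => ?_⟩
    rw [Ach]
    simp
  | succ n ih =>
    intro α
    obtain ⟨hg, h⟩ := ih (tl α)
    have key : ∀ z : ℂ, ∃ hG : Good (KK (α 0) (Psi n (fun i => 2 * tl α i)) 1),
        Ach (pX (n + 1)) (TX (n + 1)) z (n + 1)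
          (⟨KK (α 0) (Psi n (fun i => 2 * tl α i)) 1, hG.1⟩ : Sm (n + 1)) =
        ((z - α 0) * ∏ j, (z - tl α j)) •
          (⟨KK (α 0) (Psi n (fun i => 2 * tl α i)) 1, hG.1⟩ : Sm (n + 1)) := by
      intro z
      exact hS n (α 0) z (∏ j, (z - tl α j)) _ hg (h z)
    obtain ⟨hG0, -⟩ := key 0
    have hprod : ∀ z : ℂ, (z - α 0) * ∏ j, (z - tl α j) = ∏ j, (z - α j) := by
      intro z
      rw [Fin.prod_univ_succ]
      congr 1
      unfold tl
      exact Fintype.prod_equiv Fin.revPerm _ _ (fun i => rfl)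
    have hpsi := psi_eq n α
    have hG : Good (Psi (n + 1) (fun i => 2 * α i)) := by rw [hpsi]; exact hG0
    refine ⟨hG, fun z => ?_⟩
    obtain ⟨hG1, h1⟩ := key z
    rw [hprod z] at h1
    have e : (⟨Psi (n + 1) (fun i => 2 * α i), hG.1⟩ : Sm (n + 1)) =
        ⟨KK (α 0) (Psi n (fun i => 2 * tl α i)) 1, hG1.1⟩ := Subtype.ext hpsi
    rw [e]
    exact h1

end Pool.Agent.W214.WH
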