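import Pool.Agent.W680.WH.Stm

/-!
# WHH-LOG: the logarithms
-/

set_option autoImplicit false

open scoped ComplexConjugate InnerProductSpace
open ContinuousLinearMap Filter Pool.Agent.W680.WH

namespace Pool.Agent.W214.WH

/-- operators -/
abbrev Op := E →L[ℂ] E

lemma om_le_lin (n : ℕ) : om (n : ℤ) ≤ 2 * n + 1 := by
  induction n with
  | zero => simp [om_zero]
  | succ n ih =>
    push_cast
    rw [om_succ_nat]
    have h : ((4 * (n:ℝ) + 3) / (4 * (n:ℝ) + 1)) * (2 * n + 1) ≤ 2 * n + 3 := by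
      rw [div_mul_eq_mul_div, div_le_iff₀ (by positivity)]
      nlinarith [Nat.cast_nonneg (α := ℝ) n]
    have hp : 0 ≤ (4 * (n:ℝ) + 3) / (4 * (n:ℝ) + 1) := by positivity
    nlinarith [mul_le_mul_of_nonneg_right ih hp]

lemma om_abs (k : ℤ) : om k ≤ 2 * k.natAbs + 1 := by
  have h := om_le_lin k.natAbs
  have e : om ((k.natAbs : ℕ) : ℤ) = om k := by
    unfold om
    rw [Int.natAbs_natCast]
  rwa [e] at h

lemma norm_shift (hM : S_OM) (hC : S_OPC) (B : Op) (k : ℤ)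
    (h : ∀ f n, co (B f) n = co f (n - k)) : ‖B‖ ≤ 2 * k.natAbs + 1 := by
  obtain ⟨_, _, hsub, _, _⟩ := hM
  obtain ⟨_, _, _, _, _, _, hnorm, hsum, _⟩ := hC
  refine ContinuousLinearMap.opNorm_le_bound _ (by positivity) (fun f => ?_)
  refine le_of_sq_le_sq ?_ (by positivity)
  rw [hnorm (B f), mul_pow, hnorm f, ← tsum_mul_left]
  have e : ∑' n, om n * ‖co (B f) n‖ ^ 2 = ∑' n, om (n + k) * ‖co f n‖ ^ 2 := by
    rw [← (Equiv.addRight k).tsum_eq]
    refine tsum_congr (fun n => ?_)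
    rw [h]
    simp
  rw [e]
  have hb : ∀ n : ℤ, om (n + k) * ‖co f n‖ ^ 2 ≤
      (2 * (k.natAbs : ℝ) + 1) ^ 2 * (om n * ‖co f n‖ ^ 2) := by
    intro n
    have h1 := hsub n k
    have h2 := om_abs k
    have h3 := om_pos n
    have h4 : om k ≤ (2 * (k.natAbs : ℝ) + 1) ^ 2 := by
      nlinarith [Nat.cast_nonneg (α := ℝ) k.natAbs]
    have h5 : om (n + k) ≤ (2 * (k.natAbs : ℝ) + 1) ^ 2 * om n := by
      nlinarith
    calc om (n + k) * ‖co f n‖ ^ 2 ≤ ((2 * (k.natAbs : ℝ) + 1) ^ 2 * om n) * ‖co f n‖ ^ 2 :=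
          mul_le_mul_of_nonneg_right h5 (by positivity)
      _ = _ := by ring
  have hs2 : Summable fun n : ℤ => (2 * (k.natAbs : ℝ) + 1) ^ 2 * (om n * ‖co f n‖ ^ 2) :=
    (hsum f).mul_left _
  have hs1 : Summable fun n : ℤ => om (n + k) * ‖co f n‖ ^ 2 :=
    Summable.of_nonneg_of_le (fun n => mul_nonneg (om_pos _).le (by positivity)) hb hs2
  exact hs1.tsum_le_tsum hb hs2

/-- linear growth of powers -/
def Gr (A : Op) : Prop := ∀ k : ℕ, ‖A ^ k‖ ≤ 2 * k + 1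

lemma co_Z_pow (hC : S_OPC) (k : ℕ) : ∀ f (n : ℤ), co ((Z ^ k) f) n = co f (n - k) := by
  obtain ⟨_, hZ, _⟩ := hC
  induction k with
  | zero => intro f n; simp
  | succ k ih =>
    intro f n
    rw [pow_succ]
    change co ((Z ^ k) (Z f)) n = _
    rw [ih, hZ]
    congr 1
    push_cast
    ring

lemma co_Zi_pow (hC : S_OPC) (k : ℕ) : ∀ f (n : ℤ), co ((Zi ^ k) f) n = co f (n + k) := by
  obtain ⟨_, _, hZ, _⟩ := hC
  induction k with
  | zero => intro f n; simp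
  | succ k ih =>
    intro f n
    rw [pow_succ]
    change co ((Zi ^ k) (Zi f)) n = _
    rw [ih, hZ]
    congr 1
    push_cast
    ring

lemma Gr_Z (hM : S_OM) (hC : S_OPC) : Gr Z := by
  intro k
  have h := norm_shift hM hC (Z ^ k) k (co_Z_pow hC k)
  simpa using h

lemma Gr_Zi (hM : S_OM) (hC : S_OPC) : Gr Zi := by
  intro k
  have h := norm_shift hM hC (Zi ^ k) (-k) (fun f n => by rw [co_Zi_pow hC k, sub_neg_eq_add])
  simpa using h

lemma adj_pow (A : Op) (k : ℕ) : adjoint (A ^ k) = (adjoint A) ^ k := by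
  rw [← ContinuousLinearMap.star_eq_adjoint, ← ContinuousLinearMap.star_eq_adjoint, star_pow]

lemma Gr_adj (A : Op) (h : Gr A) : Gr (adjoint A) := by
  intro k
  rw [← adj_pow, LinearIsometryEquiv.norm_map]
  exact h k

/-- coefficients -/
noncomputable def cf (r : ℝ) (k : ℕ) : ℂ := ((r ^ (k + 1) / ((k : ℝ) + 1) : ℝ) : ℂ)

/-- the logarithmic series -/
noncomputable def FF (r : ℝ) (A : Op) : Op := ∑' k : ℕ, cf r k • A ^ (k + 1)

/-- the geometric series -/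
noncomputable def GG (r : ℝ) (A : Op) : Op := ∑' k : ℕ, (r : ℂ) ^ k • A ^ k

lemma sumr (r : ℝ) (h0 : 0 ≤ r) (h1 : r < 1) : Summable (fun k : ℕ => r ^ k * (2 * (k:ℝ) + 1)) := by
  have hr : ‖r‖ < 1 := by rwa [Real.norm_of_nonneg h0]
  have s1 := summable_pow_mul_geometric_of_norm_lt_one 1 hr
  have s2 := summable_pow_mul_geometric_of_norm_lt_one 0 hr
  have s3 := (s1.mul_left 2).add s2
  refine s3.congr (fun k => ?_)
  simp
  ring

lemma summ_G (r : ℝ) (h0 : 0 ≤ r) (h1 : r < 1) (A : Op) (hA : Gr A) :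
    Summable (fun k : ℕ => (r : ℂ) ^ k • A ^ k) := by
  refine Summable.of_norm_bounded (sumr r h0 h1) (fun k => ?_)
  rw [norm_smul, norm_pow, Complex.norm_real, Real.norm_of_nonneg h0]
  exact mul_le_mul_of_nonneg_left (hA k) (by positivity)

lemma summ_F (r : ℝ) (h0 : 0 ≤ r) (h1 : r < 1) (A : Op) (hA : Gr A) :
    Summable (fun k : ℕ => cf r k • A ^ (k + 1)) := by
  have hs := (summable_nat_add_iff 1).2 (sumr r h0 h1)
  refine Summable.of_norm_bounded hs (fun k => ?_)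
  have e : ‖cf r k‖ ≤ r ^ (k + 1) := by
    unfold cf
    rw [Complex.norm_real, Real.norm_of_nonneg (by positivity)]
    exact div_le_self (by positivity) (by linarith [Nat.cast_nonneg (α := ℝ) k])
  rw [norm_smul]
  exact mul_le_mul e (hA (k + 1)) (norm_nonneg _) (by positivity)

lemma inv_G (r : ℝ) (h0 : 0 ≤ r) (h1 : r < 1) (A : Op) (hA : Gr A) :
    Ring.inverse (1 - (r : ℂ) • A) = GG r A := by
  have hs := summ_G r h0 h1 A hA
  obtain ⟨x, hx⟩ : ∃ x : Op, x = (r : ℂ) • A := ⟨_, rfl⟩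
  have e : (fun k : ℕ => (r : ℂ) ^ k • A ^ k) = fun k => x ^ k := by
    funext k
    rw [hx, smul_pow]
  have hG : GG r A = ∑' k, x ^ k := by
    unfold GG
    rw [e]
  rw [e] at hs
  rw [hG, ← hx]
  obtain ⟨S, hS⟩ : ∃ S : Op, S = ∑' k, x ^ k := ⟨_, rfl⟩
  have a1 : S = 1 + x * S := by
    rw [hS, ← hs.tsum_mul_left]
    conv_lhs => rw [hs.tsum_eq_zero_add]
    simp only [pow_zero, ← pow_succ']
  have a2 : S = 1 + S * x := by
    rw [hS, ← hs.tsum_mul_right]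
    conv_lhs => rw [hs.tsum_eq_zero_add]
    simp only [pow_zero, ← pow_succ]
  have b1 : (1 - x) * S = 1 := by
    rw [sub_mul, one_mul]
    nth_rewrite 1 [a1]
    abel
  have b2 : S * (1 - x) = 1 := by
    rw [mul_sub, mul_one]
    nth_rewrite 1 [a2]
    abel
  rw [← hS]
  exact Ring.inverse_unit (⟨1 - x, S, b1, b2⟩ : Opˣ)

/-! ### algebra -/

lemma alg_a {R : Type} [Ring R] [Algebra ℂ R] (Z Z2 Q : R) (hQ : Q = Z - Z2)
    (h : Z2 * Z - Z * Z2 = (2 : ℂ) • (Q * Q)) (k : ℕ) :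
    Z2 ^ (k + 1) * Z - Z * Z2 ^ (k + 1) = (2 * ((k : ℂ) + 1)) • (Q * (Z2 ^ k * Q)) := by
  induction k with
  | zero =>
    simp only [zero_add, pow_one, Nat.cast_zero, mul_one, pow_zero, one_mul]
    exact h
  | succ k ih =>
    obtain ⟨P, hP⟩ : ∃ P, P = Z2 ^ (k + 1) := ⟨_, rfl⟩
    obtain ⟨P0, hP0⟩ : ∃ P0, P0 = Z2 ^ k := ⟨_, rfl⟩
    have hPP : P = Z2 * P0 := by rw [hP, hP0, pow_succ']
    have hPZ : Z2 * P = P * Z2 := by rw [hP, ← pow_succ, ← pow_succ']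
    rw [← hP, ← hP0] at ih
    rw [pow_succ' Z2 (k + 1), ← hP]
    have hq1 : P * Q = Q * P + (2 * ((k : ℂ) + 1)) • (Q * (P0 * Q)) := by
      rw [← ih, hQ, mul_sub, sub_mul, hPZ]
      abel
    have hq2 : Z2 * Q = Q * Z2 + (2 : ℂ) • (Q * Q) := by
      rw [← h, hQ, mul_sub, sub_mul]
      abel
    have e1 : Z2 * P * Z - Z * (Z2 * P) = Z2 * (P * Z - Z * P) + (Z2 * Z - Z * Z2) * P := by
      simp only [mul_sub, sub_mul, mul_assoc]
      abel
    have t1 : Z2 * (Q * (P0 * Q)) = Q * (P * Q) + (2 : ℂ) • (Q * (Q * (P0 * Q))) := by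
      rw [← mul_assoc, hq2, add_mul, hPP]
      simp only [smul_mul_assoc, mul_assoc]
    have t2 : Q * (P * Q) = Q * (Q * P) + (2 * ((k : ℂ) + 1)) • (Q * (Q * (P0 * Q))) := by
      rw [hq1, mul_add, mul_smul_comm]
    have t3 : Q * (Q * P) = Q * (P * Q) - (2 * ((k : ℂ) + 1)) • (Q * (Q * (P0 * Q))) := by
      rw [t2]; abel
    rw [e1, ih, h, mul_smul_comm, t1, smul_mul_assoc, mul_assoc, t3]
    push_cast
    module

lemma alg_b {R : Type} [Ring R] [Algebra ℂ R] (Z Z2 Zs Q : R) (hQ : Q = Z - Z2)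
    (h1 : Z2 * Zs = 1) (h2 : Zs * Z2 = 1)
    (h : Zs * Z - Z * Zs = (-2 : ℂ) • (Q * (Zs * (Zs * Q)))) (k : ℕ) :
    Zs ^ (k + 1) * Z - Z * Zs ^ (k + 1) =
      (-(2 * ((k : ℂ) + 1))) • (Q * (Zs ^ (k + 2) * Q)) := by
  induction k with
  | zero =>
    simp only [zero_add, pow_one, Nat.cast_zero, mul_one]
    rw [h, pow_two]
    simp only [mul_assoc]
  | succ k ih =>
    obtain ⟨P, hP⟩ : ∃ P, P = Zs ^ (k + 1) := ⟨_, rfl⟩
    have hPP : Zs ^ (k + 2) = Zs * P := by rw [hP, ← pow_succ']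
    have hPP3 : Zs ^ (k + 1 + 2) = Zs * (Zs * P) := by
      rw [hP, ← pow_succ', ← pow_succ']
    have hPZ2 : Z2 * P = P * Z2 := by
      rw [hP]
      exact ((show Commute Z2 Zs from by rw [Commute, SemiconjBy, h1, h2]).pow_right _).eq
    rw [← hP, hPP] at ih
    rw [hPP3, pow_succ' Zs (k + 1), ← hP]
    have hPs : Zs * P = P * Zs := by rw [hP, ← pow_succ, ← pow_succ']
    have hq1 : Q * P = P * Q + (2 * ((k : ℂ) + 1)) • (Q * (Zs * (P * Q))) := by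
      have e : P * Q - Q * P = P * Z - Z * P := by
        rw [hQ, mul_sub, sub_mul, hPZ2]
        abel
      rw [ih, neg_smul, mul_assoc Zs P Q] at e
      have e3 := sub_eq_iff_eq_add.1 e
      exact (neg_add_eq_iff_eq_add.1 e3.symm).trans (add_comm _ _)
    have hq2 : Zs * Q = Q * Zs - (2 : ℂ) • (Q * (Zs * (Zs * Q))) := by
      have e : Zs * Q - Q * Zs = Zs * Z - Z * Zs := by
        rw [hQ, mul_sub, sub_mul, h1, h2]
        abel
      rw [h, neg_smul] at e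
      exact (sub_eq_iff_eq_add.1 e).trans (by abel)
    have e1 : Zs * P * Z - Z * (Zs * P) = Zs * (P * Z - Z * P) + (Zs * Z - Z * Zs) * P := by
      simp only [mul_sub, sub_mul, mul_assoc]
      abel
    have t1 : Zs * (Q * (Zs * P * Q)) = Q * (Zs * (Zs * (P * Q))) -
        (2 : ℂ) • (Q * (Zs * (Zs * (Q * (Zs * (P * Q)))))) := by
      rw [← mul_assoc, hq2, sub_mul]
      simp only [smul_mul_assoc, mul_assoc]
    have t2 : Q * (Zs * (Zs * (Q * P))) = Q * (Zs * (Zs * (P * Q))) +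
        (2 * ((k : ℂ) + 1)) • (Q * (Zs * (Zs * (Q * (Zs * (P * Q)))))) := by
      rw [hq1]
      simp only [mul_add, mul_smul_comm]
    rw [e1, ih, h, mul_smul_comm, t1, smul_mul_assoc]
    simp only [mul_assoc]
    rw [t2]
    push_cast
    module

lemma Zs_comm (hA : S_OPA) (hC : S_OPC) :
    Zs * Z - Z * Zs = (-2 : ℂ) • (Q * (Zs * (Zs * Q))) := by
  obtain ⟨_, _, ⟨hZ, _, _, hZs, hQ, _⟩, _⟩ := hA
  obtain ⟨_, _, _, _, _, _, _, _, _, _, _, _, _, hext, _⟩ := hC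
  have n1 : ∀ n : ℤ, (4 * (n : ℂ) + 1) ≠ 0 := by
    intro n h
    have : (4 * n + 1 : ℤ) = 0 := by exact_mod_cast h
    omega
  have n3 : ∀ n : ℤ, (4 * (n : ℂ) + 3) ≠ 0 := by
    intro n h
    have : (4 * n + 3 : ℤ) = 0 := by exact_mod_cast h
    omega
  refine hext _ _ (fun n => ?_)
  have e0 : Zs (eb n) = ((4 * ((n - 1 : ℤ) : ℂ) + 3) / (4 * ((n - 1 : ℤ) : ℂ) + 1)) • eb (n - 1) := by
    have h := hZs (n - 1)
    rw [sub_add_cancel] at h
    exact h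
  change Zs (Z (eb n)) - Z (Zs (eb n)) = (-2 : ℂ) • (Q (Zs (Zs (Q (eb n)))))
  rw [hZ, hZs, e0, hQ n]
  simp only [map_smul]
  rw [hZ, hZs]
  simp only [map_smul]
  rw [e0]
  simp only [map_smul]
  rw [hQ (n - 1), sub_add_cancel]
  simp only [smul_smul, ← sub_smul]
  congr 1
  have a1 := n1 n
  have a2 := n3 n
  have a3 := n1 (n - 1)
  have a4 := n3 (n - 1)
  field_simp
  push_cast
  ring

/-! ### the series -/

lemma hsF (r : ℝ) (h0 : 0 ≤ r) (h1 : r < 1) (A : Op) (hA : Gr A) :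
    HasSum (fun k : ℕ => cf r k • A ^ (k + 1)) (FF r A) := (summ_F r h0 h1 A hA).hasSum

lemma hsG (r : ℝ) (h0 : 0 ≤ r) (h1 : r < 1) (A : Op) (hA : Gr A) :
    HasSum (fun k : ℕ => (r : ℂ) ^ k • A ^ k) (GG r A) := (summ_G r h0 h1 A hA).hasSum

lemma F_comm (r : ℝ) (h0 : 0 ≤ r) (h1 : r < 1) (A B : Op) (hA : Gr A) (h : A * B = B * A) :
    FF r A * B = B * FF r A := by
  have s1 := (hsF r h0 h1 A hA).mul_right B
  have s2 := (hsF r h0 h1 A hA).mul_left B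
  have e : (fun k : ℕ => cf r k • A ^ (k + 1) * B) = fun k => B * (cf r k • A ^ (k + 1)) := by
    funext k
    rw [smul_mul_assoc, mul_smul_comm, (show Commute A B from h).pow_left (k + 1)]
  rw [e] at s1
  exact s1.unique s2

lemma conj_cf (r : ℝ) (k : ℕ) : conj (cf r k) = cf r k := by
  unfold cf
  exact Complex.conj_ofReal _

lemma jj_pow (A A' : Op) (h : ∀ f, jj (A f) = A' (jj f)) (k : ℕ) :
    ∀ f, jj ((A ^ k) f) = (A' ^ k) (jj f) := by
  induction k with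
  | zero => intro f; simp
  | succ k ih =>
    intro f
    rw [pow_succ, pow_succ]
    change jj ((A ^ k) (A f)) = (A' ^ k) (A' (jj f))
    rw [ih, h]

lemma jj_F (hJ : S_OPJ) (r : ℝ) (h0 : 0 ≤ r) (h1 : r < 1) (A A' : Op) (hA : Gr A) (hA' : Gr A')
    (h : ∀ f, jj (A f) = A' (jj f)) (f : E) : jj (FF r A f) = FF r A' (jj f) := by
  obtain ⟨_, _, _, _, _, _, hadd, hsm, hn, _⟩ := hJ
  obtain ⟨J, hJ⟩ : ∃ J : E →+ E, ∀ f, J f = jj f := ⟨AddMonoidHom.mk' jj hadd, fun f => rfl⟩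
  have hJc : Continuous J := by
    refine (AddMonoidHomClass.isometry_of_norm J (fun f => ?_)).continuous
    rw [hJ, hn]
  have s1 := (ContinuousLinearMap.apply ℂ E f).hasSum (hsF r h0 h1 A hA)
  have s2 := s1.map J hJc
  have s3 := (ContinuousLinearMap.apply ℂ E (jj f)).hasSum (hsF r h0 h1 A' hA')
  have e : (J ∘ fun k : ℕ => (ContinuousLinearMap.apply ℂ E f) (cf r k • A ^ (k + 1))) =
      fun k : ℕ => (ContinuousLinearMap.apply ℂ E (jj f)) (cf r k • A' ^ (k + 1)) := by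
    funext k
    simp only [Function.comp, ContinuousLinearMap.apply_apply, _root_.smul_apply]
    rw [hJ, hsm, conj_cf, jj_pow A A' h]
  rw [e] at s2
  have u := s2.unique s3
  simp only [ContinuousLinearMap.apply_apply] at u
  rw [hJ] at u
  exact u

lemma adj_F (r : ℝ) (h0 : 0 ≤ r) (h1 : r < 1) (A : Op) (hA : Gr A) :
    adjoint (FF r A) = FF r (adjoint A) := by
  have s1 := (hsF r h0 h1 A hA).star
  have s2 := hsF r h0 h1 (adjoint A) (Gr_adj A hA)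
  have e : (fun k : ℕ => star (cf r k • A ^ (k + 1))) =
      fun k : ℕ => cf r k • (adjoint A) ^ (k + 1) := by
    funext k
    rw [star_smul, star_pow, ContinuousLinearMap.star_eq_adjoint]
    congr 1
    exact conj_cf r k
  rw [e] at s1
  exact s1.unique s2

lemma co_F (hC : S_OPC) (r : ℝ) (h0 : 0 ≤ r) (h1 : r < 1) (A : Op) (hA : Gr A) (f : E) (m : ℤ) :
    HasSum (fun k : ℕ => cf r k * co ((A ^ (k + 1)) f) m) (co (FF r A f) m) := by
  obtain ⟨_, _, _, _, _, hsm, _, _, _, hin, _⟩ := hC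
  have s1 := (innerSL ℂ (eb m)).hasSum ((ContinuousLinearMap.apply ℂ E f).hasSum (hsF r h0 h1 A hA))
  simp only [ContinuousLinearMap.apply_apply, _root_.smul_apply, innerSL_apply_apply,
    hin, hsm] at s1
  have hp : (om m : ℂ) ≠ 0 := by exact_mod_cast (om_pos m).ne'
  have s2 := s1.mul_left ((om m : ℂ)⁻¹)
  simpa [inv_mul_cancel_left₀ hp] using s2

lemma co_single (n m : ℤ) : co (lp.single 2 n (1 : ℂ)) m =
    if m = n then (((Real.sqrt (om n) : ℝ) : ℂ))⁻¹ else 0 := by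
  unfold co
  by_cases h : m = n
  · subst h
    simp
  · rw [if_neg h]
    simp [h]

lemma F_Z_gt (hM : S_OM) (hC : S_OPC) (r : ℝ) (h0 : 0 ≤ r) (h1 : r < 1) (n : ℤ) (k : ℕ) :
    co (FF r Z (lp.single 2 n (1 : ℂ))) (n + (k + 1)) =
      cf r k * (((Real.sqrt (om n) : ℝ) : ℂ))⁻¹ := by
  have s := co_F hC r h0 h1 Z (Gr_Z hM hC) (lp.single 2 n (1 : ℂ)) (n + (k + 1))
  refine s.unique ?_
  have e : cf r k * co ((Z ^ (k + 1)) (lp.single 2 n (1 : ℂ))) (n + (k + 1)) =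
      cf r k * (((Real.sqrt (om n) : ℝ) : ℂ))⁻¹ := by
    rw [co_Z_pow hC, co_single, if_pos (by push_cast; ring)]
  rw [← e]
  refine hasSum_single k (fun j hj => ?_)
  rw [co_Z_pow hC, co_single, if_neg (by push_cast; omega), mul_zero]

lemma F_Z_le (hM : S_OM) (hC : S_OPC) (r : ℝ) (h0 : 0 ≤ r) (h1 : r < 1) (n m : ℤ) (h : m ≤ n) :
    co (FF r Z (lp.single 2 n (1 : ℂ))) m = 0 := by
  have s := co_F hC r h0 h1 Z (Gr_Z hM hC) (lp.single 2 n (1 : ℂ)) m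
  refine s.unique ?_
  have e : (fun k : ℕ => cf r k * co ((Z ^ (k + 1)) (lp.single 2 n (1 : ℂ))) m) = fun _ => 0 := by
    funext k
    rw [co_Z_pow hC, co_single, if_neg (by push_cast; omega), mul_zero]
  rw [e]
  exact hasSum_zero

lemma F_Zi_lt (hM : S_OM) (hC : S_OPC) (r : ℝ) (h0 : 0 ≤ r) (h1 : r < 1) (n : ℤ) (k : ℕ) :
    co (FF r Zi (lp.single 2 n (1 : ℂ))) (n - (k + 1)) =
      cf r k * (((Real.sqrt (om n) : ℝ) : ℂ))⁻¹ := by
  have s := co_F hC r h0 h1 Zi (Gr_Zi hM hC) (lp.single 2 n (1 : ℂ)) (n - (k + 1))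
  refine s.unique ?_
  have e : cf r k * co ((Zi ^ (k + 1)) (lp.single 2 n (1 : ℂ))) (n - (k + 1)) =
      cf r k * (((Real.sqrt (om n) : ℝ) : ℂ))⁻¹ := by
    rw [co_Zi_pow hC, co_single, if_pos (by push_cast; ring)]
  rw [← e]
  refine hasSum_single k (fun j hj => ?_)
  rw [co_Zi_pow hC, co_single, if_neg (by push_cast; omega), mul_zero]

lemma F_Zi_ge (hM : S_OM) (hC : S_OPC) (r : ℝ) (h0 : 0 ≤ r) (h1 : r < 1) (n m : ℤ) (h : n ≤ m) :
    co (FF r Zi (lp.single 2 n (1 : ℂ))) m = 0 := by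
  have s := co_F hC r h0 h1 Zi (Gr_Zi hM hC) (lp.single 2 n (1 : ℂ)) m
  refine s.unique ?_
  have e : (fun k : ℕ => cf r k * co ((Zi ^ (k + 1)) (lp.single 2 n (1 : ℂ))) m) = fun _ => 0 := by
    funext k
    rw [co_Zi_pow hC, co_single, if_neg (by push_cast; omega), mul_zero]
  rw [e]
  exact hasSum_zero

/-- the operator -/
noncomputable def LL (r : ℝ) : Op := -(FF r Z + FF r Zi)

lemma entry (f : E) (m : ℤ) : f m = co f m * ((Real.sqrt (om m) : ℝ) : ℂ) := by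
  unfold co
  have h : ((Real.sqrt (om m) : ℝ) : ℂ) ≠ 0 := by
    have := Real.sqrt_pos.2 (om_pos m)
    exact_mod_cast this.ne'
  rw [div_mul_cancel₀ _ h]

lemma val (r : ℝ) (m n : ℤ) (k : ℕ) (hk : (m - n).natAbs = k + 1) :
    -(cf r k * (((Real.sqrt (om n) : ℝ) : ℂ))⁻¹) * ((Real.sqrt (om m) : ℝ) : ℂ) =
      (-(r ^ (m - n).natAbs / ((m - n).natAbs : ℝ) * Real.sqrt (om m / om n)) : ℝ) := by
  rw [hk]
  unfold cf
  rw [Real.sqrt_div (om_pos m).le]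
  push_cast
  field_simp

lemma logmat (hM : S_OM) (hC : S_OPC) (r : ℝ) (h0 : 0 ≤ r) (h1 : r < 1) : LogMat r (LL r) := by
  intro n m
  have hco : co (LL r (lp.single 2 n (1 : ℂ))) m =
      -(co (FF r Z (lp.single 2 n (1 : ℂ))) m + co (FF r Zi (lp.single 2 n (1 : ℂ))) m) := by
    obtain ⟨_, _, _, _, hadd, hsm, _⟩ := hC
    have e : LL r (lp.single 2 n (1 : ℂ)) = (-1 : ℂ) • (FF r Z (lp.single 2 n (1 : ℂ)) +
        FF r Zi (lp.single 2 n (1 : ℂ))) := by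
      rw [neg_one_smul]
      rfl
    rw [e, hsm, hadd]
    ring
  rw [entry, hco]
  rcases lt_trichotomy m n with h | h | h
  · rw [if_neg h.ne]
    obtain ⟨k, hk⟩ : ∃ k : ℕ, m = n - (k + 1) := ⟨(n - m - 1).toNat, by omega⟩
    have hk2 : (m - n).natAbs = k + 1 := by omega
    rw [F_Z_le hM hC r h0 h1 n m h.le, ← val r m n k hk2, zero_add]
    have h3 := F_Zi_lt hM hC r h0 h1 n k
    rw [← hk] at h3
    rw [h3]
  · rw [if_pos h]
    rw [F_Z_le hM hC r h0 h1 n m h.le, F_Zi_ge hM hC r h0 h1 n m h.ge]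
    simp
  · rw [if_neg h.ne']
    obtain ⟨k, hk⟩ : ∃ k : ℕ, m = n + (k + 1) := ⟨(m - n - 1).toNat, by omega⟩
    have hk2 : (m - n).natAbs = k + 1 := by omega
    rw [F_Zi_ge hM hC r h0 h1 n m h.le, ← val r m n k hk2, add_zero]
    have h3 := F_Z_gt hM hC r h0 h1 n k
    rw [← hk] at h3
    rw [h3]

lemma cf_mul (r : ℝ) (k : ℕ) : cf r k * (2 * ((k : ℂ) + 1)) = (2 * r) * (r : ℂ) ^ k := by
  unfold cf
  have h : ((k : ℂ) + 1) ≠ 0 := by exact_mod_cast (Nat.succ_ne_zero k)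
  push_cast
  field_simp
  ring

lemma comm_Z2 (hA : S_OPA) (r : ℝ) (h0 : 0 ≤ r) (h1 : r < 1) (hg : Gr Z2) :
    FF r Z2 * Z - Z * FF r Z2 = (2 * (r : ℂ)) • (Q * GG r Z2 * Q) := by
  have hc := hA.2.2.2
  have s1 := ((hsF r h0 h1 Z2 hg).mul_right Z).sub ((hsF r h0 h1 Z2 hg).mul_left Z)
  have s2 := (((hsG r h0 h1 Z2 hg).mul_left Q).mul_right Q).const_smul (2 * (r : ℂ))
  have e : (fun b : ℕ => cf r b • Z2 ^ (b + 1) * Z - Z * cf r b • Z2 ^ (b + 1)) =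
      fun i : ℕ => (2 * (r : ℂ)) • (Q * (r : ℂ) ^ i • Z2 ^ i * Q) := by
    funext k
    rw [smul_mul_assoc, mul_smul_comm, ← smul_sub, alg_a Z Z2 Q rfl hc k, smul_smul, cf_mul]
    rw [mul_smul_comm, smul_mul_assoc, smul_smul, mul_assoc Q]
  rw [e] at s1
  exact s1.unique s2

lemma comm_Zs (hA : S_OPA) (hC : S_OPC) (r : ℝ) (h0 : 0 ≤ r) (h1 : r < 1) (hg : Gr Zs) :
    FF r Zs * Z - Z * FF r Zs = (-(2 * (r : ℂ))) • (Q * (Zs * Zs * GG r Zs) * Q) := by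
  have hc := Zs_comm hA hC
  have s1 := ((hsF r h0 h1 Zs hg).mul_right Z).sub ((hsF r h0 h1 Zs hg).mul_left Z)
  have s2 := ((((hsG r h0 h1 Zs hg).mul_left (Zs * Zs)).mul_left Q).mul_right Q).const_smul
    (-(2 * (r : ℂ)))
  have e : (fun b : ℕ => cf r b • Zs ^ (b + 1) * Z - Z * cf r b • Zs ^ (b + 1)) =
      fun i : ℕ => (-(2 * (r : ℂ))) • (Q * (Zs * Zs * (r : ℂ) ^ i • Zs ^ i) * Q) := by
    funext k
    rw [smul_mul_assoc, mul_smul_comm, ← smul_sub,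
      alg_b Z Z2 Zs Q rfl hA.1.2.2.1 hA.1.2.2.2 hc k, smul_smul, mul_neg, cf_mul]
    rw [mul_smul_comm, mul_smul_comm, smul_mul_assoc, smul_smul, mul_assoc Q]
    have e : Zs ^ (k + 2) = Zs * Zs * Zs ^ k := by
      rw [pow_succ', pow_succ', mul_assoc]
    rw [e]
    congr 1
    ring
  rw [e] at s1
  exact s1.unique s2

theorem log_ (hM : S_OM) (hA : S_OPA) (hC : S_OPC) (hJ : S_OPJ) : S_LOG := by
  intro r h0 h1
  have gZ := Gr_Z hM hC
  have gZi := Gr_Zi hM hC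
  have aZ : adjoint Z = Zs := hA.2.1.1
  have aZi : adjoint Zi = Z2 := hA.2.1.2
  have gZs : Gr Zs := aZ ▸ Gr_adj Z gZ
  have gZ2 : Gr Z2 := aZi ▸ Gr_adj Zi gZi
  have jneg : ∀ f, jj (-f) = -jj f := by
    intro f
    obtain ⟨_, _, _, _, _, _, hadd, hsm, hn, _⟩ := hJ
    have h := hsm (-1) f
    simpa using h
  have jadd := hJ.2.2.2.2.2.2.1
  have hadj : adjoint (LL r) = -(FF r Zs + FF r Z2) := by
    unfold LL
    rw [map_neg, map_add, adj_F r h0 h1 Z gZ, adj_F r h0 h1 Zi gZi, aZ, aZi]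
  refine ⟨LL r, logmat hM hC r h0 h1, ?_, ?_, ?_, ?_⟩
  · unfold LL
    rw [neg_mul, mul_neg, add_mul, mul_add, F_comm r h0 h1 Z Z gZ rfl,
      F_comm r h0 h1 Zi Z gZi (by rw [hA.1.1, hA.1.2.1])]
  · intro f
    change jj (-(FF r Z f + FF r Zi f)) = -(FF r Z (jj f) + FF r Zi (jj f))
    rw [jneg, jadd, jj_F hJ r h0 h1 Z Zi gZ gZi hJ.1 f,
      jj_F hJ r h0 h1 Zi Z gZi gZ hJ.2.2.1 f, add_comm]
  · intro f
    rw [hadj]
    change jj (-(FF r Zs f + FF r Z2 f)) = -(FF r Zs (jj f) + FF r Z2 (jj f))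
    rw [jneg, jadd, jj_F hJ r h0 h1 Zs Z2 gZs gZ2 hJ.2.2.2.1 f,
      jj_F hJ r h0 h1 Z2 Zs gZ2 gZs hJ.2.1 f, add_comm]
  · rw [hadj, inv_G r h0 h1 Z2 gZ2, inv_G r h0 h1 Zs gZs]
    have c1 := comm_Z2 hA r h0 h1 gZ2
    have c2 := comm_Zs hA hC r h0 h1 gZs
    have e : Z * -(FF r Zs + FF r Z2) - -(FF r Zs + FF r Z2) * Z =
        (FF r Zs * Z - Z * FF r Zs) + (FF r Z2 * Z - Z * FF r Z2) := by
      noncomm_ring
    rw [e, c1, c2]
    simp only [mul_add, add_mul, mul_neg, neg_mul, mul_smul_comm, smul_mul_assoc]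
    module

end Pool.Agent.W214.WH
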